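import Pool.Agent.MWGQ.StmtsC

/-!
# Row PEF of squad MWGQ (MP_23468a_al): the crossing hull pentagon, period `n`
-/

namespace Pool.Agent.MWGQ.H52

open Pool.Agent.Helper14_MV Pool.Agent.Helper2_MV Pool.Agent.MWGQ Pool.Agent.MWF
open Pool.Agent.MWK (pre)
open Pool.Agent.MWGN (Tau)

/-- row PEF -/
theorem pef (hV : VcfStmt) (hC : ClfStmt) (hS : SafStmt) : PefStmt := by
  intro n β hM hG r
  induction r using Nat.strong_induction_on with
  | _ r ih =>
  intro τ hT
  rcases Nat.eq_zero_or_pos r with h0 | hr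
  · subst h0
    intro X B S L C
    exact RR.refl _
  by_contra hK
  have hr1 : 1 ≤ r := hr
  obtain ⟨K, hKd⟩ : ∃ K : List ℕ → Prop, K = fun w => KX n τ r w ∧ KY n τ r w := ⟨_, rfl⟩
  have hv := fun u v h => hV n β hG τ r hr1 hT (fun m hm τ' hT' => ih m hm τ' hT') hK u v h
  have hc := hC n hG.pos τ r hr1 hT
  have bK : β ≤ gaml K := le_gaml fun u v h hu => by
    rw [hKd] at hu ⊢
    exact ⟨(hv u v h).1 hu.1, (hv u v h).2 hu.2⟩
  have bσ : β ≤ gaml (KX n τ r) := le_gaml fun u v h hu => (hv u v h).1 hu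
  have bτ : β ≤ gaml (KY n τ r) := le_gaml fun u v h hu => (hv u v h).2 hu
  have bρ : β ≤ FIC.inf (gaml K) (gaml (KY n τ r)) := fun u v h => ⟨bK u v h, bτ u v h⟩
  have s1 : RR (gaml (KX n τ r)) (wf n τ r false false) (wf n τ r true false) :=
    RR_gaml fun f p q => (hc f p q).1 false
  have s2 : RR (gaml (KX n τ r)) (wf n τ r false true) (wf n τ r true true) :=
    RR_gaml fun f p q => (hc f p q).1 true
  have t1 : RR (gaml (KY n τ r)) (wf n τ r false false) (wf n τ r false true) :=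
    RR_gaml fun f p q => (hc f p q).2.1 false
  have t2 : RR (gaml (KY n τ r)) (wf n τ r true false) (wf n τ r true true) :=
    RR_gaml fun f p q => (hc f p q).2.1 true
  have r1 : RR (gaml K) (wf n τ r true false) (wf n τ r true true) :=
    RR_gaml fun f p q => by
      rw [hKd]
      exact (hc f p q).2.2
  have r2 : RR (FIC.inf (gaml K) (gaml (KY n τ r))) (wf n τ r true false) (wf n τ r true true) :=
    ⟨r1, t2⟩
  have hs : RR (FIC.sup (FIC.inf (gaml K) (gaml (KY n τ r))) (gaml (KX n τ r)))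
      (wf n τ r false false) (wf n τ r false true) := by
    have a1 := FIC.le_sup_right (FIC.inf (gaml K) (gaml (KY n τ r))) (gaml (KX n τ r)) _ _ s1
    have a2 := FIC.le_sup_left (FIC.inf (gaml K) (gaml (KY n τ r))) (gaml (KX n τ r)) _ _ r2
    have a3 := FIC.le_sup_right (FIC.inf (gaml K) (gaml (KY n τ r))) (gaml (KX n τ r)) _ _ s2
    exact FIC.trans _ a1 (FIC.trans _ a2 (FIC.symm _ a3))
  have hle : FIC.inf (gaml K) (gaml (KY n τ r)) ≤ gaml (KY n τ r) := fun u v h => h.2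
  obtain ⟨k1, k2, k3⟩ := hS n hG.pos τ r hr1 hT
  have hw : K (wf n τ r false false) := by
    rw [hKd]
    exact ⟨k1, k2⟩
  have h3 := pent hM bρ bσ bτ hle (P := K) (fun u v h hu => (gaml_keep h.1).1 hu)
    (fun u v hσ hτ hu => by
      rw [hKd] at hu ⊢
      exact ⟨(gaml_keep hσ).1 hu.1, (gaml_keep hτ).1 hu.2⟩) hs t1 hw
  rw [hKd] at h3
  exact k3 h3.1

end Pool.Agent.MWGQ.H52
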